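import Pool.Agent.helper54.V3.SpecE

/-!
# GEL: doubly periodic entire functions are constant
-/

set_option autoImplicit false

open Complex Metric Set Filter Topology MeasureTheory

noncomputable section

namespace V3

theorem GEL : GEL_stmt := by
  intro v t₁ t₂ hv hp1 hp2 ht1 him x y
  have hper1 : Function.Periodic v t₁ := hp1
  have hper2 : Function.Periodic v t₂ := hp2
  obtain ⟨C, hC⟩ := (isCompact_closedBall (0 : ℂ) (‖t₁‖ + ‖t₂‖)).exists_bound_of_continuousOn
    hv.continuous.continuousOn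
  have key : ∀ x : ℂ, ‖v x‖ ≤ C := by
    intro x
    set τ : ℂ := t₂ / t₁ with hτ
    set z : ℂ := x / t₁ with hz
    set b : ℝ := z.im / τ.im with hb
    set a : ℝ := z.re - b * τ.re with ha
    have hzab : z = a + b * τ := by
      apply Complex.ext
      · simp [ha]
      · simp only [Complex.add_im, Complex.ofReal_im, Complex.mul_im, Complex.ofReal_re, zero_mul,
          zero_add, add_zero]
        rw [hb, div_mul_cancel₀ _ him]
    have hx : x = a * t₁ + b * t₂ := by
      have h1 : x = z * t₁ := by rw [hz, div_mul_cancel₀ _ ht1]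
      have h2 : τ * t₁ = t₂ := by rw [hτ, div_mul_cancel₀ _ ht1]
      rw [h1, hzab, add_mul, mul_assoc, h2]
    have hx' : x = ((Int.fract a : ℝ) : ℂ) * t₁ + ((Int.fract b : ℝ) : ℂ) * t₂ +
        ((⌊a⌋ : ℤ) : ℂ) * t₁ + ((⌊b⌋ : ℤ) : ℂ) * t₂ := by
      have h1 : (a : ℂ) = ((Int.fract a : ℝ) : ℂ) + ((⌊a⌋ : ℤ) : ℂ) := by
        have := Int.fract_add_floor a
        conv_lhs => rw [← this]
        push_cast
        ring
      have h2 : (b : ℂ) = ((Int.fract b : ℝ) : ℂ) + ((⌊b⌋ : ℤ) : ℂ) := by
        have := Int.fract_add_floor b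
        conv_lhs => rw [← this]
        push_cast
        ring
      rw [hx]
      conv_lhs => rw [h1, h2]
      ring
    have hvx : v x = v (((Int.fract a : ℝ) : ℂ) * t₁ + ((Int.fract b : ℝ) : ℂ) * t₂) := by
      rw [hx', hper2.int_mul ⌊b⌋, hper1.int_mul ⌊a⌋]
    rw [hvx]
    refine hC _ ?_
    rw [mem_closedBall_zero_iff]
    refine (norm_add_le _ _).trans ?_
    rw [norm_mul, norm_mul, Complex.norm_real, Complex.norm_real,
      Real.norm_of_nonneg (Int.fract_nonneg a), Real.norm_of_nonneg (Int.fract_nonneg b)]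
    have h3 := (Int.fract_lt_one a).le
    have h4 := (Int.fract_lt_one b).le
    have h5 := norm_nonneg t₁
    have h6 := norm_nonneg t₂
    nlinarith
  refine hv.apply_eq_apply_of_bounded ?_ x y
  rw [isBounded_iff_forall_norm_le]
  refine ⟨C, ?_⟩
  rintro _ ⟨w, rfl⟩
  exact key w

end V3
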